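import Pool.Agent.Helper95.AG.Defs
import Pool.Agent.Helper8.AF.Cos
import Pool.Agent.Helper8.AF.Five

/-!
# Project AG, block M2: double zeros
-/

set_option autoImplicit false

namespace Pool.Agent.Helper8.AG

open MeasureTheory Real Set Filter
open scoped ENNReal
open Pool.Agent.Helper82.QR (cs sn)
open Pool.Agent.Helper95.AF (ip un)

/-- moments of negative order from level sets -/
theorem mom {X : Type*} [MeasurableSpace X] {μ : Measure X} (hμ : μ univ ≤ 1) {f : X → ℝ} (hf : Measurable f) (hf0 : ∀ x, 0 ≤ f x)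
    {r₀ : ℝ} (hr : 0 < r₀) (h : ∀ r : ℝ, 0 < r → r ≤ r₀ → μ {x | f x < r} ≤ ENNReal.ofReal (√(r / r₀))) {q : ℝ} (hq : 0 < q)
    (hq4 : q ≤ 1 / 4) : ∫⁻ x, ip q (f x) ∂μ ≤ ENNReal.ofReal (5 * r₀ ^ (-q)) := by
  have hset : ∀ k : ℕ, MeasurableSet {x | f x < (1 / 16) ^ k * r₀} := fun k => measurableSet_lt hf measurable_const
  have hrp : 0 < r₀ ^ (-q) := Real.rpow_pos_of_pos hr _
  have hanti : ∀ {x y : ℝ}, x ≤ y → ip q y ≤ ip q x := by
    intro x y hxy
    unfold ip
    rw [ENNReal.rpow_neg, ENNReal.rpow_neg]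
    exact ENNReal.inv_le_inv.2 (ENNReal.rpow_le_rpow (ENNReal.ofReal_le_ofReal hxy) hq.le)
  have key : ∀ x, ip q (f x) ≤ ENNReal.ofReal (r₀ ^ (-q)) *
      (1 + ∑' k : ℕ, ({x | f x < (1 / 16) ^ k * r₀}).indicator (fun _ => (2 : ℝ≥0∞) ^ (k + 1)) x) := by
    intro x
    have hpos : ENNReal.ofReal (r₀ ^ (-q)) ≠ 0 := by
      rw [Ne, ENNReal.ofReal_eq_zero, not_le]
      exact hrp
    rcases le_or_gt r₀ (f x) with h1 | h1
    · calc ip q (f x) ≤ ip q r₀ := hanti h1
        _ = ENNReal.ofReal (r₀ ^ (-q)) := by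
            unfold ip
            rw [ENNReal.ofReal_rpow_of_pos hr]
        _ = ENNReal.ofReal (r₀ ^ (-q)) * 1 := (mul_one _).symm
        _ ≤ _ := mul_le_mul_of_nonneg_left le_self_add zero_le
    rcases (hf0 x).eq_or_lt with h2 | h2
    · have h3 : ∑' k : ℕ, ({x | f x < (1 / 16) ^ k * r₀}).indicator (fun _ => (2 : ℝ≥0∞) ^ (k + 1)) x = ⊤ := by
        rw [← top_le_iff, ← ENNReal.tsum_const_eq_top_of_ne_zero (α := ℕ) (one_ne_zero (α := ℝ≥0∞))]
        refine ENNReal.tsum_le_tsum fun k => ?_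
        rw [indicator_of_mem (show x ∈ {x | f x < (1 / 16) ^ k * r₀} by
          rw [mem_ofPred_eq, ← h2]
          positivity)]
        exact one_le_pow₀ (by norm_num)
      rw [h3, add_top, ENNReal.mul_top hpos]
      exact le_top
    · have h3 : ∃ k : ℕ, (1 / 16 : ℝ) ^ (k + 1) * r₀ ≤ f x ∧ f x < (1 / 16) ^ k * r₀ := by
        obtain ⟨n, hn⟩ := exists_pow_lt_of_lt_one (div_pos h2 hr) (by norm_num : (1 / 16 : ℝ) < 1)
        have hP : ∃ n : ℕ, (1 / 16 : ℝ) ^ n * r₀ ≤ f x := ⟨n, by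
          rw [lt_div_iff₀ hr] at hn
          exact hn.le⟩
        classical
        have h4 := Nat.find_spec hP
        have h5 : Nat.find hP ≠ 0 := by
          intro h0
          rw [h0, pow_zero, one_mul] at h4
          linarith
        obtain ⟨k, hk⟩ := Nat.exists_eq_succ_of_ne_zero h5
        refine ⟨k, ?_, ?_⟩
        · rw [hk] at h4
          exact h4
        · have := Nat.find_min hP (show k < Nat.find hP by omega)
          exact not_le.1 this
      obtain ⟨k, hk1, hk2⟩ := h3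
      have h4 : ip q ((1 / 16) ^ (k + 1) * r₀) ≤ ENNReal.ofReal (r₀ ^ (-q)) * 2 ^ (k + 1) := by
        unfold ip
        rw [ENNReal.ofReal_rpow_of_pos (by positivity), show (2 : ℝ≥0∞) ^ (k + 1) = ENNReal.ofReal (2 ^ (k + 1)) by
          rw [ENNReal.ofReal_pow (by norm_num)]
          norm_num, ← ENNReal.ofReal_mul hrp.le]
        apply ENNReal.ofReal_le_ofReal
        rw [Real.mul_rpow (by positivity) hr.le, mul_comm]
        refine mul_le_mul_of_nonneg_left ?_ hrp.le
        rw [← Real.rpow_natCast (1 / 16), ← Real.rpow_mul (by norm_num), ← Real.rpow_natCast 2,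
          show (1 / 16 : ℝ) = 2 ^ (-4 : ℝ) by norm_num [Real.rpow_neg], ← Real.rpow_mul (by norm_num)]
        apply Real.rpow_le_rpow_of_exponent_le (by norm_num)
        have h5 : (0 : ℝ) ≤ ((k + 1 : ℕ) : ℝ) := by positivity
        nlinarith
      calc ip q (f x) ≤ ip q ((1 / 16) ^ (k + 1) * r₀) := hanti hk1
        _ ≤ ENNReal.ofReal (r₀ ^ (-q)) * 2 ^ (k + 1) := h4
        _ ≤ _ := by
            refine mul_le_mul_of_nonneg_left ?_ zero_le
            refine le_trans ?_ le_add_self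
            refine le_trans ?_ (ENNReal.le_tsum k)
            rw [indicator_of_mem (show x ∈ {x | f x < (1 / 16) ^ k * r₀} from hk2)]
  have hm : Measurable fun x => 1 + ∑' k : ℕ, ({x | f x < (1 / 16) ^ k * r₀}).indicator (fun _ => (2 : ℝ≥0∞) ^ (k + 1)) x :=
    measurable_const.add (Measurable.ennreal_tsum fun k => measurable_const.indicator (hset k))
  calc ∫⁻ x, ip q (f x) ∂μ ≤ ∫⁻ x, ENNReal.ofReal (r₀ ^ (-q)) *
      (1 + ∑' k : ℕ, ({x | f x < (1 / 16) ^ k * r₀}).indicator (fun _ => (2 : ℝ≥0∞) ^ (k + 1)) x) ∂μ := lintegral_mono key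
    _ = ENNReal.ofReal (r₀ ^ (-q)) * (μ univ + ∑' k : ℕ, 2 ^ (k + 1) * μ {x | f x < (1 / 16) ^ k * r₀}) := by
        rw [lintegral_const_mul _ hm, lintegral_add_left measurable_const, lintegral_const, one_mul,
          lintegral_tsum fun k => (measurable_const.indicator (hset k)).aemeasurable]
        congr 3
        funext k
        rw [lintegral_indicator (hset k), lintegral_const, Measure.restrict_apply MeasurableSet.univ, univ_inter]
    _ ≤ ENNReal.ofReal (r₀ ^ (-q)) * (1 + ∑' k : ℕ, 2 * (2⁻¹ : ℝ≥0∞) ^ k) := by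
        refine mul_le_mul_of_nonneg_left (add_le_add hμ (ENNReal.tsum_le_tsum fun k => ?_)) zero_le
        have h1 := h ((1 / 16) ^ k * r₀) (by positivity) (mul_le_of_le_one_left hr.le (pow_le_one₀ (by norm_num) (by norm_num)))
        have h2 : √((1 / 16 : ℝ) ^ k * r₀ / r₀) = (1 / 4) ^ k := by
          rw [mul_div_assoc, div_self hr.ne', mul_one, show (1 / 16 : ℝ) = (1 / 4) ^ 2 by norm_num, ← pow_mul, mul_comm 2 k, pow_mul,
            Real.sqrt_sq (by positivity)]
        rw [h2] at h1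
        refine (mul_le_mul_of_nonneg_left h1 zero_le).trans (le_of_eq ?_)
        have h3 : (2 : ℝ≥0∞) ^ (k + 1) = ENNReal.ofReal (2 ^ (k + 1)) := by
          rw [ENNReal.ofReal_pow (by norm_num)]
          norm_num
        have h4 : 2 * (2⁻¹ : ℝ≥0∞) ^ k = ENNReal.ofReal (2 * (1 / 2) ^ k) := by
          rw [ENNReal.ofReal_mul (by norm_num), ENNReal.ofReal_pow (by norm_num), one_div, ENNReal.ofReal_inv_of_pos (by norm_num)]
          norm_num
        rw [h3, h4, ← ENNReal.ofReal_mul (by positivity)]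
        congr 1
        have h5 : (1 / 4 : ℝ) ^ k = (1 / 2) ^ k * (1 / 2) ^ k := by
          rw [← mul_pow]
          norm_num
        have h6 : (2 : ℝ) ^ k * (1 / 2) ^ k = 1 := by
          rw [← mul_pow]
          norm_num
        rw [h5, pow_succ]
        linear_combination (2 * (1 / 2) ^ k) * h6
    _ = ENNReal.ofReal (5 * r₀ ^ (-q)) := by
        rw [ENNReal.tsum_mul_left, ENNReal.tsum_geometric_two, mul_comm 5, ENNReal.ofReal_mul hrp.le]
        congr 1
        norm_num

/-- the law of a point of a short arc -/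
theorem un_arc {S : Set UnitAddCircle} (hS : MeasurableSet S) (y : ℝ) {s : ℝ} (hs : 0 < s) (hs1 : s ≤ 1) :
    un {t : ℝ | ((y + s * t : ℝ) : UnitAddCircle) ∈ S} ≤ ENNReal.ofReal s⁻¹ * volume S := by
  have h1 := Pool.Agent.Helper8.AF.arc (g := S.indicator 1) (measurable_one.indicator hS) (y : UnitAddCircle) hs hs1
  rw [lintegral_indicator_one hS] at h1
  refine le_trans (le_of_eq ?_) h1
  have hm : MeasurableSet {t : ℝ | ((y + s * t : ℝ) : UnitAddCircle) ∈ S} :=
    (AddCircle.measurable_mk'.comp (by fun_prop : Measurable fun t : ℝ => y + s * t)) hS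
  unfold un
  rw [← lintegral_indicator_one hm, setLIntegral_congr Ioc_ae_eq_Icc.symm]
  refine lintegral_congr fun t => ?_
  by_cases ht : ((y + s * t : ℝ) : UnitAddCircle) ∈ S
  · rw [indicator_of_mem (show t ∈ {t : ℝ | ((y + s * t : ℝ) : UnitAddCircle) ∈ S} from ht), indicator_of_mem]
    · rfl
    · rw [← AddCircle.coe_add]
      exact ht
  · rw [indicator_of_notMem (show t ∉ {t : ℝ | ((y + s * t : ℝ) : UnitAddCircle) ∈ S} from ht), indicator_of_notMem]
    rw [← AddCircle.coe_add]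
    exact ht

/-- level sets of the cosine on a short arc -/
theorem un_cos (τ y : ℝ) {s r : ℝ} (hs : 0 < s) (hs1 : s ≤ 1) (hr : 0 ≤ r) :
    un {t : ℝ | |Real.cos (2 * π * (y + s * t)) - τ| < r} ≤ ENNReal.ofReal (√(2 * r / s ^ 2)) := by
  set c : ℝ := max (-1) (min 1 τ) with hc
  have hc1 : -1 ≤ c := le_max_left _ _
  have hc2 : c ≤ 1 := max_le (by norm_num) (min_le_left _ _)
  have hφ : Real.cos (2 * π * (Real.arccos c / (2 * π))) = c := by
    rw [mul_div_cancel₀ _ (by positivity), Real.cos_arccos hc1 hc2]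
  have hsub : {t : ℝ | |Real.cos (2 * π * (y + s * t)) - τ| < r} ⊆ {t : ℝ | ((y + s * t : ℝ) : UnitAddCircle) ∈
      {x : UnitAddCircle | |cs x - Real.cos (2 * π * (Real.arccos c / (2 * π)))| < r}} := by
    intro t ht
    simp only [mem_ofPred_eq] at ht ⊢
    rw [hφ, Pool.Agent.Helper82.QR.cs_coe]
    refine lt_of_le_of_lt ?_ ht
    have h1 := Real.neg_one_le_cos (2 * π * (y + s * t))
    have h2 := Real.cos_le_one (2 * π * (y + s * t))
    rw [hc]
    rcases le_or_gt τ (-1) with h5 | h5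
    · rw [min_eq_right (by linarith), max_eq_left h5, abs_of_nonneg (by linarith), abs_of_nonneg (by linarith)]
      linarith
    · rcases le_or_gt τ 1 with h6 | h6
      · rw [min_eq_right h6, max_eq_right h5.le]
      · rw [min_eq_left h6.le, max_eq_right (by norm_num), abs_of_nonpos (by linarith), abs_of_nonpos (by linarith)]
        linarith
  have hS : MeasurableSet {x : UnitAddCircle | |cs x - Real.cos (2 * π * (Real.arccos c / (2 * π)))| < r} :=
    measurableSet_lt (Pool.Agent.Helper82.QR.cs_meas.sub_const _).norm measurable_const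
  refine (measure_mono hsub).trans ((un_arc hS y hs hs1).trans ?_)
  refine (mul_le_mul_of_nonneg_left (Pool.Agent.Helper8.AF.lev0 _ hr) zero_le).trans (le_of_eq ?_)
  rw [← ENNReal.ofReal_mul (by positivity)]
  congr 1
  rw [Real.sqrt_div (by positivity), Real.sqrt_sq hs.le]
  field_simp

/-- **M2**: double zeros, all `c` -/
theorem m2 : ∃ C : ℝ, 1 ≤ C ∧ ∀ a s y c q : ℝ, 100 ≤ |a| → 0 < s → s ≤ 1 → 0 < q → q ≤ 1 / 4 →
    ∫⁻ t, ip q |2 + 2 * π * a * Real.cos (2 * π * (y + s * t)) - c| ∂un ≤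
      ENNReal.ofReal (C * (|a| * s ^ 2) ^ (-q)) := by
  refine ⟨5, by norm_num, fun a s y c q ha hs hs1 hq hq4 => ?_⟩
  have hprob := Pool.Agent.Helper8.AF.un_prob
  have ha0 : 0 < |a| := by linarith
  have ha1 : a ≠ 0 := abs_pos.1 ha0
  refine mom (μ := un) prob_le_one (f := fun t => |2 + 2 * π * a * Real.cos (2 * π * (y + s * t)) - c|) (by fun_prop)
    (fun t => abs_nonneg _) (by positivity) (fun r hr hr1 => ?_) hq hq4
  have hsub : {t : ℝ | |2 + 2 * π * a * Real.cos (2 * π * (y + s * t)) - c| < r} ⊆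
      {t : ℝ | |Real.cos (2 * π * (y + s * t)) - (c - 2) / (2 * π * a)| < r / (2 * π * |a|)} := by
    intro t ht
    simp only [mem_ofPred_eq] at ht ⊢
    rw [lt_div_iff₀ (by positivity)]
    have e : |Real.cos (2 * π * (y + s * t)) - (c - 2) / (2 * π * a)| * (2 * π * |a|) =
        |2 + 2 * π * a * Real.cos (2 * π * (y + s * t)) - c| := by
      have e1 : 2 * π * |a| = |2 * π * a| := by rw [abs_mul, abs_of_pos (by positivity : 0 < 2 * π)]
      rw [e1, ← abs_mul]
      congr 1
      field_simp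
      ring
    rw [e]
    exact ht
  refine (measure_mono hsub).trans ((un_cos _ y hs hs1 (by positivity)).trans ?_)
  apply ENNReal.ofReal_le_ofReal
  apply Real.sqrt_le_sqrt
  have hpi := Real.pi_gt_three
  rw [show 2 * (r / (2 * π * |a|)) / s ^ 2 = r / (|a| * s ^ 2) * (1 / π) by field_simp]
  exact mul_le_of_le_one_right (by positivity) (by rw [div_le_one (by positivity)]; linarith)

end Pool.Agent.Helper8.AG
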